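import Pool.Agent.MP_c54dba_ag.H70.Main

/-! No interpolated lc thresholds of rank one foliations on smooth varieties accumulate at `1`. -/

set_option autoImplicit false

namespace Pool.Agent.Results.MP_c54dba_ag.RankOneGap

open Pool.Agent.MP_c54dba_ag Pool.Agent.MP_c54dba_ag.H70

theorem result (n : ℕ) (Γ : Set ℝ) (hΓ : Γ ⊆ Set.Icc 0 1)
    (hdcc : ¬ ∃ u : ℕ → ℝ, StrictAnti u ∧ ∀ i, u i ∈ Γ) :
    ∃ ε : ℝ, 0 < ε ∧ ∀ (K : Type) [Field K] [Algebra ℂ K], Algebra.trdeg ℂ K = (n + 1 : ℕ) →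
      ∀ U : Set (Subalgebra ℂ K), (∀ A ∈ U, Algebra.Smooth ℂ A ∧ IsFractionRing A K) →
      ∀ (δ : Fin 1 → Derivation ℂ K K) (τ : Fin (n + 1) → Derivation ℂ K K),
        LinearIndependent K δ → LinearIndependent K τ →
      ∀ B : Val K →₀ ℝ, (∀ P ∈ B.support, B P ∈ Γ) →
      ∀ t ∈ Set.Ioc (1 - ε) 1, LCN n U δ τ B t → LCN n U δ τ B 1 := by
  have h1 : (AddSubmonoid.closure Γ : Set ℝ).IsWF := (Set.IsPWO.addSubmonoid_closure (fun x hx => (hΓ hx).1)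
    (Set.isWF_iff_no_descending_seq.mpr fun f a b => hdcc ⟨f, a, b⟩).isPWO).isWF
  have h2 : ∀ a : ℝ, ∃ η > 0, ∀ z ∈ AddSubmonoid.closure Γ, a < z → a + η ≤ z := fun a => by
    rcases (↑(AddSubmonoid.closure Γ) ∩ Set.Ioi a).eq_empty_or_nonempty with h | h
    · exact ⟨1, one_pos, fun z b c => absurd (h ▸ ⟨b, c⟩ : z ∈ (∅ : Set ℝ)) id⟩
    · have h3 := h1.mono (Set.inter_subset_left (t := Set.Ioi a))
      exact ⟨_, sub_pos.mpr (h3.min_mem h).2, fun z b c => by linarith [h3.min_le h ⟨b, c⟩]⟩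
  obtain ⟨β, β0, hβ⟩ := h2 0
  obtain ⟨η, η0, hη⟩ := h2 1
  obtain ⟨M, hM⟩ := exists_nat_ge ((1 + η) / β)
  rw [div_le_iff₀ β0] at hM
  have hl : 0 ≤ ∑ i : Fin (n + 1), ((n + 1 + i : ℕ) : ℝ) := Finset.sum_nonneg fun _ _ => Nat.cast_nonneg _
  refine ⟨min (1 / (1 + ∑ i : Fin (n + 1), ((n + 1 + i : ℕ) : ℝ))) (min (β / (n + 1)) (η / ((n + 1) * (M + 1)))),
    by positivity, fun K _ _ ht U hU δ τ hδ hτ B hB t h h3 => by_contra fun h4 => ?_⟩
  have hT : ∀ P, B P ∈ AddSubmonoid.closure Γ := fun P => by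
    by_cases h : P ∈ B.support
    exacts [AddSubmonoid.subset_closure (hB P h), Finsupp.notMem_support_iff.mp h ▸ zero_mem _]
  obtain ⟨a1, a2⟩ := h
  rw [sub_lt_comm, lt_min_iff, lt_min_iff, lt_div_iff₀ (by positivity), lt_div_iff₀ (by positivity),
    lt_div_iff₀ (by positivity)] at a1
  have a3 := mul_nonneg (sub_nonneg.mpr a2) hl
  rcases gap ht hU hδ hτ B (by linarith) a2 hT β0 (fun P h => by
    simpa using hβ _ (hT P) ((hΓ (hB P (Finsupp.mem_support_iff.mpr h))).1.lt_of_ne' h)) hη (M := M)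
    (by linarith) h3 h4 with h | h | h <;> linarith

end Pool.Agent.Results.MP_c54dba_ag.RankOneGap
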