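import Pool.Agent.MP_c54dba_ag.H70.Main

/-! The sharp gap for rank one foliations on smooth varieties without boundary. -/

set_option autoImplicit false

namespace Pool.Agent.Results.MP_c54dba_ag.SharpGap

open Pool.Agent.MP_c54dba_ag Pool.Agent.MP_c54dba_ag.H70

theorem result (n : ℕ) (hn : 1 ≤ n) :
    IsGreatest {t : ℝ | t ≤ 1 ∧ ∃ (K : Type) (_ : Field K) (_ : Algebra ℂ K) (U : Set (Subalgebra ℂ K))
      (δ : Fin 1 → Derivation ℂ K K) (τ : Fin (n + 1) → Derivation ℂ K K),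
        Algebra.trdeg ℂ K = (n + 1 : ℕ) ∧ (∀ A ∈ U, Algebra.Smooth ℂ A ∧ IsFractionRing A K) ∧
        LinearIndependent K δ ∧ LinearIndependent K τ ∧ LCN n U δ τ 0 t ∧ ¬ LCN n U δ τ 0 1}
      ((n + 1) * (3 * (n + 1) - 1) / ((n + 1) * (3 * (n + 1) - 1) + 2)) := by
  have h0 : (0 : ℝ) < (n + 1) * (3 * (n + 1) - 1) := mul_pos (by positivity) (by linarith [n.cast_nonneg (α := ℝ)])
  constructor
  · obtain ⟨L, _, _, A, x, τ, δ, H⟩ := exists_ex n
    have a1 := (div_le_one (by positivity)).mpr (le_add_of_nonneg_right (a := (n + 1 : ℝ) * (3 * (n + 1) - 1))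
      zero_le_two)
    exact ⟨a1, L, _, _, {A}, δ, τ, H.ht, fun _ h => h ▸ ⟨H.sm, H.fr⟩, H.hδ, H.hτ, H.lc hn a1 (by
      rw [sum_wt]
      generalize (n + 1 : ℝ) * (3 * (n + 1) - 1) = q at h0 ⊢
      field_simp
      ring), H.not_lc hn⟩
  · rintro t ⟨a2, K, _, _, U, δ, τ, ht, hU, hδ, hτ, h1, h2⟩
    by_contra a1
    rw [not_le] at a1
    have a3 : 0 ≤ t := le_trans (by positivity) a1.le
    rw [div_lt_iff₀ (by positivity)] at a1
    have a4 := mul_nonneg a3 (n.cast_nonneg (α := ℝ))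
    rcases gap ht hU hδ hτ 0 a3 a2 (T := ⊥) (β := n + 3) (η := n + 2) (M := 0) (fun _ => rfl) (by positivity)
      (fun _ h => absurd rfl h) (fun z (h : z = 0) h' => by linarith) (by push_cast; linarith) h1 h2 with h | h | h
    · rw [sum_wt] at h; linarith
    · linarith
    · simp only [Nat.cast_zero, zero_add, mul_one] at h; linarith

end Pool.Agent.Results.MP_c54dba_ag.SharpGap
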