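import Pool.Agent.MP_c54dba_ag.Mg.Main

/-! ACC for interpolated lc thresholds on surfaces with quotient singularities. -/

set_option autoImplicit false

namespace Pool.Agent.Results.MP_c54dba_ag.Surfaces

open Pool.Agent.MP_c54dba_ag

theorem result (Γ : Set ℝ) (hΓ : Γ ⊆ Set.Icc 0 1)
    (hdcc : ¬ ∃ u : ℕ → ℝ, StrictAnti u ∧ ∀ i, u i ∈ Γ) :
    ∃ Γ' : Set ℝ, (¬ ∃ u : ℕ → ℝ, StrictMono u ∧ ∀ i, u i ∈ Γ') ∧
      ∀ (K : Type) [Field K] [Algebra ℂ K], Algebra.trdeg ℂ K = 2 → ∀ U : Set (Subalgebra ℂ K),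
        (∀ A ∈ U, A.FG ∧ IsFractionRing A K ∧ IsIntegrallyClosed A ∧ QuotSing A) →
      ∀ (r : ℕ) (δ : Fin r → Derivation ℂ K K) (τ : Fin 2 → Derivation ℂ K K),
        LinearIndependent K δ → LinearIndependent K τ →
      ∀ B : Val K →₀ ℝ, (∀ P ∈ B.support, B P ∈ Γ) →
        Cartier U (fun P => can τ P + B P) → Cartier U (fun P => can δ P + eps δ P * B P) →
        {t ∈ Set.Icc (0 : ℝ) 1 | LC U δ τ B t}.Nonempty →
        sSup {t ∈ Set.Icc (0 : ℝ) 1 | LC U δ τ B t} ∈ Γ' := by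
  refine ⟨{x | ∃ S : Set ℝ, S ⊆ Set.Icc 0 1 ∧ S.Nonempty ∧ x = sSup S ∧ (1 ∉ S →
    ∀ t' ∈ Set.Icc (0 : ℝ) 1, t' ∉ S → ∃ pr, Good Γ pr ∧ (∃ a b p q, Wt a b p q ∧ Phi pr a b t' < 0) ∧
      ∀ t ∈ S, ∀ a b p q, Wt a b p q → 0 ≤ Phi pr a b t)}, ?_, ?_⟩
  · rintro ⟨u, hu, h⟩
    choose S hS hne he H using h
    obtain rfl : u = fun i => sSup (S i) := funext he
    refine acc hΓ hdcc S hS hne hu fun i => H i fun h1 => ?_
    have a1 : 1 ≤ sSup (S i) := le_csSup ⟨1, fun t ht => (hS i ht).2⟩ h1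
    have a2 : sSup (S (i + 1)) ≤ 1 := csSup_le (hne _) fun t ht => (hS _ ht).2
    exact absurd (hu (Nat.lt_succ_self i)) (not_lt.mpr (a2.trans a1))
  · intro K _ _ ht U hU r δ τ hδ hτ B hB h1 h2 hne
    obtain ⟨t0, h0⟩ := hne
    exact ⟨_, fun t h => h.1, ⟨t0, h0⟩, rfl, fun h4 t' ht' h5 =>
      exists_prof ht hΓ hU hδ hτ hB h1 h2 h0.2 (fun h => h4 ⟨⟨zero_le_one, le_rfl⟩, h⟩) ht'
        fun h => h5 ⟨ht', h⟩⟩

end Pool.Agent.Results.MP_c54dba_ag.Surfaces
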